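import Pool.Agent.N520.AN.Stm

/-!
Project AN (helper520), part EX: the orthogonal space of a limit space is a plate.
-/

set_option autoImplicit false

open Set Filter Topology

namespace Pool.Agent.N279.AN

open Pool.Agent.N520.AN

section

variable {E : Type} [NormedAddCommGroup E] [NormedSpace ℝ E] [FiniteDimensional ℝ E]

/-- the functional on `L` given by the bilinear form -/
noncomputable def phi (B : E →ₗ[ℝ] E →ₗ[ℝ] ℝ) (L : Submodule ℝ E) : E →ₗ[ℝ] Module.Dual ℝ L where
  toFun x := (B x).comp L.subtype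
  map_add' x y := by
    ext v
    simp
  map_smul' a x := by
    ext v
    simp

/-- the orthogonal space -/
noncomputable def orth (B : E →ₗ[ℝ] E →ₗ[ℝ] ℝ) (L : Submodule ℝ E) : Submodule ℝ E :=
  LinearMap.ker (phi B L)

omit [FiniteDimensional ℝ E] in
theorem mem_orth {B : E →ₗ[ℝ] E →ₗ[ℝ] ℝ} {L : Submodule ℝ E} {x : E} :
    x ∈ orth B L ↔ ∀ v ∈ L, B x v = 0 := by
  unfold orth
  rw [LinearMap.mem_ker]
  constructor
  · intro h v hv
    have := LinearMap.congr_fun h ⟨v, hv⟩
    simpa [phi] using this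
  · intro h
    ext v
    simpa [phi] using h v v.2

theorem finrank_orth {B : E →ₗ[ℝ] E →ₗ[ℝ] ℝ} (hB : ∀ v, (∀ w, B v w = 0) → v = 0)
    (L : Submodule ℝ E) :
    Module.finrank ℝ (orth B L) = Module.finrank ℝ E - Module.finrank ℝ L := by
  have hinj : Function.Injective B := by
    rw [← LinearMap.ker_eq_bot, LinearMap.ker_eq_bot']
    intro v hv
    exact hB v fun w => by rw [hv]; rfl
  have hsurj : Function.Surjective B := by
    have h1 : Module.finrank ℝ E = Module.finrank ℝ (E →ₗ[ℝ] ℝ) :=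
      (Subspace.dual_finrank_eq (K := ℝ) (V := E)).symm
    exact (LinearMap.injective_iff_surjective_of_finrank_eq_finrank h1).1 hinj
  have hphi : Function.Surjective (phi B L) := by
    intro f
    obtain ⟨g, hg⟩ := LinearMap.exists_extend f
    obtain ⟨x, hx⟩ := hsurj g
    refine ⟨x, ?_⟩
    rw [← hg, ← hx]
    rfl
  have h2 := LinearMap.finrank_range_add_finrank_ker (phi B L)
  rw [LinearMap.range_eq_top.2 hphi, finrank_top, Subspace.dual_finrank_eq] at h2
  unfold orth
  omega

end

theorem t_ex : S_EX := by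
  intro E _ _ _ B q Λ hA g hg hq
  have hK : Module.finrank ℝ (orth B (att g)) = Module.finrank ℝ E - q := by
    rw [finrank_orth hA.nondeg, hq]
  obtain ⟨K, hKdef⟩ : ∃ K : Submodule ℝ (EuclideanSpace ℝ (Fin (Module.finrank ℝ E))),
      K = (orth B (att g)).map (toEuclidean (E := E)).toLinearEquiv.toLinearMap := ⟨_, rfl⟩
  have hK' : Module.finrank ℝ K = Module.finrank ℝ E - q := by
    rw [hKdef, ← hK]
    exact LinearEquiv.finrank_map_eq (toEuclidean (E := E)).toLinearEquiv (orth B (att g))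
  have hmem : ∀ x : E, x ∈ orth B (att g) ↔ toEuclidean x ∈ K := by
    intro x
    rw [hKdef]
    constructor
    · intro h
      exact ⟨x, h, rfl⟩
    · rintro ⟨y, hy, hyx⟩
      have : y = x := (toEuclidean (E := E)).injective hyx
      rw [← this]
      exact hy
  let j : EuclideanSpace ℝ (Fin (Module.finrank ℝ E - q)) ≃ₗᵢ[ℝ] K :=
    ((stdOrthonormalBasis ℝ K).reindex (finCongr hK')).repr.symm
  let k : EuclideanSpace ℝ (Fin (Module.finrank ℝ E - q)) →L[ℝ] E :=
    ((toEuclidean (E := E)).symm : _ →L[ℝ] E) ∘L K.subtypeL ∘L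
      (j.toContinuousLinearEquiv : _ →L[ℝ] K)
  have hk : ∀ f, k f = (toEuclidean (E := E)).symm ((j f : K) : EuclideanSpace ℝ _) := fun f => rfl
  have hk2 : ∀ f, toEuclidean (k f) = ((j f : K) : EuclideanSpace ℝ _) := fun f => by
    rw [hk, ContinuousLinearEquiv.apply_symm_apply]
  have hr : ∀ x, x ∈ range k ↔ ∀ v ∈ att g, B x v = 0 := by
    intro x
    rw [← mem_orth, hmem]
    constructor
    · rintro ⟨f, rfl⟩
      rw [hk2]
      exact (j f).2
    · intro h
      refine ⟨j.symm ⟨toEuclidean x, h⟩, ?_⟩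
      apply (toEuclidean (E := E)).injective
      rw [hk2, LinearIsometryEquiv.apply_symm_apply]
  refine ⟨k, ⟨fun f => ?_, g, hg, hq, hr⟩, hr⟩
  rw [hk2]
  exact j.norm_map f

end Pool.Agent.N279.AN

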